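import Mathlib

/-!
# Lattices between a lattice and its multiple by a prime ideal

`R` is a Dedekind domain, `P` a nonzero prime ideal, `a`, `B` are nonzero ideals. The submodules
strictly between `P (a B × a)` and `a B × a`.
-/

set_option autoImplicit false
set_option linter.unusedSectionVars false
set_option linter.unusedVariables false

namespace Pool.Agent.H71.NVK

variable {R : Type} [CommRing R] [IsDedekindDomain R]

theorem sup_simple (P I : Ideal R) (hP : P.IsPrime) (hP0 : P ≠ ⊥) (hI : I ≠ ⊥) (x0 : R)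
    (h0 : x0 ∈ I) (h1 : x0 ∉ P * I) : Ideal.span {x0} ⊔ P * I = I := by
  have hle : Ideal.span {x0} ⊔ P * I ≤ I :=
    sup_le ((Ideal.span_singleton_le_iff_mem I).2 h0) Ideal.mul_le_right
  obtain ⟨C, hC⟩ := Ideal.dvd_iff_le.2 hle
  have h2 : I * C ∣ I * P := by
    rw [← hC, mul_comm I P]
    exact Ideal.dvd_iff_le.2 le_sup_right
  have h3 : P ≤ C := Ideal.dvd_iff_le.1 ((mul_dvd_mul_iff_left hI).1 h2)
  have hM : P.IsMaximal := hP.isMaximal hP0
  by_cases hCt : C = ⊤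
  · rw [hC, hCt, Ideal.mul_top]
  · exfalso
    have h4 : P = C := hM.eq_of_le hCt h3
    apply h1
    rw [mul_comm, h4, ← hC]
    exact Ideal.mem_sup_left (Ideal.mem_span_singleton_self x0)

theorem simple (P I : Ideal R) (hP : P.IsPrime) (hP0 : P ≠ ⊥) (hI : I ≠ ⊥) (x0 x : R)
    (h0 : x0 ∈ I) (h1 : x0 ∉ P * I) (hx : x ∈ I) : ∃ t, x - t * x0 ∈ P * I := by
  rw [← sup_simple P I hP hP0 hI x0 h0 h1] at hx
  obtain ⟨y, hy, z, hz, rfl⟩ := Submodule.mem_sup.1 hx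
  obtain ⟨t, rfl⟩ := Ideal.mem_span_singleton'.1 hy
  exact ⟨t, by simpa using hz⟩

theorem surj (P a B : Ideal R) (hP : P.IsPrime) (hP0 : P ≠ ⊥) (ha : a ≠ ⊥) (y0 x : R)
    (h0 : y0 ∈ a) (h1 : y0 ∉ P * a) (hx : x ∈ a * B) : ∃ j ∈ B, x - j * y0 ∈ P * (a * B) := by
  rw [← sup_simple P a hP hP0 ha y0 h0 h1, Ideal.sup_mul] at hx
  obtain ⟨y, hy, z, hz, rfl⟩ := Submodule.mem_sup.1 hx
  obtain ⟨j, hj, rfl⟩ := Ideal.mem_span_singleton_mul.1 hy
  refine ⟨j, hj, ?_⟩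
  rw [mul_assoc] at hz
  have e : y0 * j + z - j * y0 = z := by ring
  rw [e]
  exact hz

theorem exists_notMem (P I : Ideal R) (hP : P.IsPrime) (hI : I ≠ ⊥) :
    ∃ x ∈ I, x ∉ P * I := by
  by_contra hcon
  push Not at hcon
  have h1 : P * I ∣ 1 * I := by
    rw [one_mul]
    exact Ideal.dvd_iff_le.2 fun x hx => hcon x hx
  have h2 : P ∣ 1 := (mul_dvd_mul_iff_right hI).1 h1
  apply hP.ne_top
  rw [Ideal.dvd_iff_le] at h2
  exact top_le_iff.1 (Ideal.one_eq_top (R := R) ▸ h2)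

/-- the lattice `u.1 ∈ a B`, `u.2 ∈ P a` -/
def Li (P a B : Ideal R) : Submodule R (R × R) := Submodule.prod (a * B) (P * a)

/-- the lattice `u.2 ∈ a`, `u.1 - j u.2 ∈ P a B` -/
def Lj (P a B : Ideal R) (j : R) : Submodule R (R × R) where
  carrier := {u | u.2 ∈ a ∧ u.1 - j * u.2 ∈ P * (a * B)}
  zero_mem' := by simp
  add_mem' := by
    rintro u v ⟨h1, h2⟩ ⟨h3, h4⟩
    refine ⟨a.add_mem h1 h3, ?_⟩
    have e : (u + v).1 - j * (u + v).2 = (u.1 - j * u.2) + (v.1 - j * v.2) := by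
      simp only [Prod.fst_add, Prod.snd_add]
      ring
    rw [e]
    exact Ideal.add_mem _ h2 h4
  smul_mem' := by
    rintro c u ⟨h1, h2⟩
    refine ⟨a.mul_mem_left c h1, ?_⟩
    have e : (c • u).1 - j * (c • u).2 = c * (u.1 - j * u.2) := by
      simp only [Prod.smul_fst, Prod.smul_snd, smul_eq_mul]
      ring
    rw [e]
    exact Ideal.mul_mem_left _ c h2

theorem mem_Li {P a B : Ideal R} {u : R × R} : u ∈ Li P a B ↔ u.1 ∈ a * B ∧ u.2 ∈ P * a :=
  Iff.rfl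

theorem mem_Lj {P a B : Ideal R} {j : R} {u : R × R} :
    u ∈ Lj P a B j ↔ u.2 ∈ a ∧ u.1 - j * u.2 ∈ P * (a * B) := Iff.rfl

theorem mem_N {a B : Ideal R} {u : R × R} :
    u ∈ Submodule.prod (a * B) a ↔ u.1 ∈ a * B ∧ u.2 ∈ a := Iff.rfl

theorem Lj_le (P a B : Ideal R) (j : R) (hj : j ∈ B) :
    Lj P a B j ≤ Submodule.prod (a * B) a := by
  rintro u ⟨h1, h2⟩
  refine ⟨?_, h1⟩
  have e : u.1 = (u.1 - j * u.2) + u.2 * j := by ring
  rw [e]
  exact Ideal.add_mem _ (Ideal.mul_le_right h2) (Ideal.mul_mem_mul h1 hj)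

theorem le_Lj (P a B : Ideal R) (j : R) (hj : j ∈ B) :
    Submodule.prod ((P * a) * B) (P * a) ≤ Lj P a B j := by
  rintro u ⟨h1, h2⟩
  refine ⟨Ideal.mul_le_right h2, ?_⟩
  have h3 : j * u.2 ∈ P * (a * B) := by
    rw [mul_comm j u.2, ← mul_assoc P a B]
    exact Ideal.mul_mem_mul h2 hj
  refine Ideal.sub_mem _ ?_ h3
  rw [← mul_assoc]
  exact h1

theorem Li_le (P a B : Ideal R) : Li P a B ≤ Submodule.prod (a * B) a := by
  rintro u ⟨h1, h2⟩
  exact ⟨h1, Ideal.mul_le_right h2⟩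

theorem le_Li (P a B : Ideal R) : Submodule.prod ((P * a) * B) (P * a) ≤ Li P a B := by
  rintro u ⟨h1, h2⟩
  refine ⟨?_, h2⟩
  rw [mul_assoc] at h1
  exact Ideal.mul_le_right h1

theorem prop_Li (P a B : Ideal R) (hP : P.IsPrime) (ha : a ≠ ⊥) (hB : B ≠ ⊥) :
    Li P a B ≠ Submodule.prod (a * B) a ∧ Li P a B ≠ Submodule.prod ((P * a) * B) (P * a) := by
  obtain ⟨y, hy, hy'⟩ := exists_notMem P a hP ha
  obtain ⟨x, hx, hx'⟩ := exists_notMem P (a * B) hP (mul_ne_zero ha hB)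
  constructor
  · intro h
    have h1 : ((0, y) : R × R) ∈ Submodule.prod (a * B) a := ⟨Ideal.zero_mem _, hy⟩
    rw [← h] at h1
    exact hy' h1.2
  · intro h
    have h1 : ((x, 0) : R × R) ∈ Li P a B := ⟨hx, Ideal.zero_mem _⟩
    rw [h] at h1
    apply hx'
    rw [← mul_assoc]
    exact h1.1

theorem prop_Lj (P a B : Ideal R) (j : R) (hj : j ∈ B) (hP : P.IsPrime) (ha : a ≠ ⊥)
    (hB : B ≠ ⊥) :
    Lj P a B j ≠ Submodule.prod (a * B) a ∧
      Lj P a B j ≠ Submodule.prod ((P * a) * B) (P * a) ∧ Lj P a B j ≠ Li P a B := by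
  obtain ⟨y, hy, hy'⟩ := exists_notMem P a hP ha
  obtain ⟨x, hx, hx'⟩ := exists_notMem P (a * B) hP (mul_ne_zero ha hB)
  refine ⟨?_, ?_, ?_⟩
  · intro h
    have h1 : ((x, 0) : R × R) ∈ Submodule.prod (a * B) a := ⟨hx, Ideal.zero_mem _⟩
    rw [← h] at h1
    have h2 := h1.2
    simp only [mul_zero, sub_zero] at h2
    exact hx' h2
  · intro h
    have h1 : ((j * y, y) : R × R) ∈ Lj P a B j := ⟨hy, by simp⟩
    rw [h] at h1
    exact hy' h1.2
  · intro h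
    have h1 : ((x, 0) : R × R) ∈ Li P a B := ⟨hx, Ideal.zero_mem _⟩
    rw [← h] at h1
    have h2 := h1.2
    simp only [mul_zero, sub_zero] at h2
    exact hx' h2

theorem Lj_eq (P a B : Ideal R) (j j' : R) (h : j - j' ∈ P * B) : Lj P a B j = Lj P a B j' := by
  have key : ∀ j j' : R, j - j' ∈ P * B → Lj P a B j ≤ Lj P a B j' := by
    rintro j j' h u ⟨h1, h2⟩
    refine ⟨h1, ?_⟩
    have e : u.1 - j' * u.2 = (u.1 - j * u.2) + (j - j') * u.2 := by ring
    rw [e]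
    refine Ideal.add_mem _ h2 ?_
    have h3 : (j - j') * u.2 ∈ (P * B) * a := Ideal.mul_mem_mul h h1
    have e2 : P * (a * B) = (P * B) * a := by ring
    rw [e2]
    exact h3
  refine le_antisymm (key j j' h) (key j' j ?_)
  have e : j' - j = -(j - j') := by ring
  rw [e]
  exact Ideal.neg_mem_iff _ |>.2 h

theorem Lj_inj (P a B : Ideal R) (j j' : R) (ha : a ≠ ⊥) (h : Lj P a B j = Lj P a B j') :
    j - j' ∈ P * B := by
  have h1 : Ideal.span {j - j'} * a ≤ (P * B) * a := by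
    rw [Ideal.span_singleton_mul_le_iff]
    intro y hy
    have h2 : ((j * y, y) : R × R) ∈ Lj P a B j := ⟨hy, by simp⟩
    rw [h] at h2
    have h3 := h2.2
    have e : (j * y, y).1 - j' * (j * y, y).2 = (j - j') * y := by
      simp only
      ring
    rw [e] at h3
    have e2 : P * (a * B) = (P * B) * a := by ring
    rw [← e2]
    exact h3
  have h2 : P * B ∣ Ideal.span {j - j'} :=
    (mul_dvd_mul_iff_right ha).1 (Ideal.dvd_iff_le.2 h1)
  exact (Ideal.span_singleton_le_iff_mem _).1 (Ideal.dvd_iff_le.1 h2)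

/-- the lattices between -/
theorem classify (P a B : Ideal R) (hP : P.IsPrime) (hP0 : P ≠ ⊥) (ha : a ≠ ⊥) (hB : B ≠ ⊥)
    (L : Submodule R (R × R)) (h1 : Submodule.prod ((P * a) * B) (P * a) ≤ L)
    (h2 : L ≤ Submodule.prod (a * B) a) (h3 : L ≠ Submodule.prod (a * B) a)
    (h4 : L ≠ Submodule.prod ((P * a) * B) (P * a)) :
    L = Li P a B ∨ ∃ j ∈ B, L = Lj P a B j := by
  have hI : a * B ≠ ⊥ := mul_ne_zero ha hB
  by_cases hc : ∀ u ∈ L, u.2 ∈ P * a
  · left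
    refine le_antisymm (fun u hu => ⟨(h2 hu).1, hc u hu⟩) ?_
    obtain ⟨u0, hu0, hu0'⟩ : ∃ u ∈ L, u ∉ Submodule.prod ((P * a) * B) (P * a) := by
      by_contra hcon
      push Not at hcon
      exact h4 (le_antisymm hcon h1)
    have hx0 : u0.1 ∉ P * (a * B) := fun h => hu0' ⟨by rw [mul_assoc]; exact h, hc u0 hu0⟩
    intro u hu
    obtain ⟨t, ht⟩ := simple P (a * B) hP hP0 hI u0.1 u.1 (h2 hu0).1 hx0 hu.1
    have h5 : u - t • u0 ∈ L := h1 ⟨by
      rw [mul_assoc]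
      exact ht, Ideal.sub_mem _ hu.2 (Ideal.mul_mem_left _ t (hc u0 hu0))⟩
    have h6 := L.add_mem h5 (L.smul_mem t hu0)
    simpa using h6
  · right
    push Not at hc
    obtain ⟨u0, hu0, hy0⟩ := hc
    obtain ⟨j, hj, hj'⟩ := surj P a B hP hP0 ha u0.2 u0.1 (h2 hu0).2 hy0 (h2 hu0).1
    refine ⟨j, hj, ?_⟩
    have key : ∀ u : R × R, u.2 ∈ a → ∀ t, u.2 - t * u0.2 ∈ P * a →
        (u.1 - t * u0.1) - (u.1 - j * u.2) ∈ P * (a * B) := by
      intro u hu t ht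
      have e : (u.1 - t * u0.1) - (u.1 - j * u.2) =
          (u.2 - t * u0.2) * j - t * (u0.1 - j * u0.2) := by ring
      rw [e]
      refine Ideal.sub_mem _ ?_ (Ideal.mul_mem_left _ t hj')
      rw [← mul_assoc]
      exact Ideal.mul_mem_mul ht hj
    have hle : Lj P a B j ≤ L := by
      rintro u ⟨hu1, hu2⟩
      obtain ⟨t, ht⟩ := simple P a hP hP0 ha u0.2 u.2 (h2 hu0).2 hy0 hu1
      have h5 : u - t • u0 ∈ L := h1 ⟨by
        rw [mul_assoc]
        have h6 := Ideal.add_mem _ (key u hu1 t ht) hu2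
        have e : (u.1 - t * u0.1) - (u.1 - j * u.2) + (u.1 - j * u.2) = (u - t • u0).1 := by
          simp only [Prod.fst_sub, Prod.smul_fst, smul_eq_mul]
          ring
        rw [e] at h6
        exact h6, ht⟩
      have h6 := L.add_mem h5 (L.smul_mem t hu0)
      simpa using h6
    refine le_antisymm (fun u1 hu1 => ?_) hle
    by_contra hcon
    have hn : u1.1 - j * u1.2 ∉ P * (a * B) := fun h => hcon ⟨(h2 hu1).2, h⟩
    obtain ⟨t, ht⟩ := simple P a hP hP0 ha u0.2 u1.2 (h2 hu0).2 hy0 (h2 hu1).2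
    have hv : u1 - t • u0 ∈ L := L.sub_mem hu1 (L.smul_mem t hu0)
    have hv1 : (u1 - t • u0).1 ∉ P * (a * B) := by
      intro h
      apply hn
      have h6 := Ideal.sub_mem _ h (key u1 (h2 hu1).2 t ht)
      have e : (u1 - t • u0).1 - ((u1.1 - t * u0.1) - (u1.1 - j * u1.2)) = u1.1 - j * u1.2 := by
        simp only [Prod.fst_sub, Prod.smul_fst, smul_eq_mul]
        ring
      rw [e] at h6
      exact h6
    apply h3
    refine le_antisymm h2 fun u hu => ?_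
    obtain ⟨r, hr⟩ := simple P a hP hP0 ha u0.2 u.2 (h2 hu0).2 hy0 hu.2
    have hu' : (u - r • u0).1 ∈ a * B := Ideal.sub_mem _ hu.1 (Ideal.mul_mem_left _ r (h2 hu0).1)
    obtain ⟨r', hr'⟩ := simple P (a * B) hP hP0 hI (u1 - t • u0).1 (u - r • u0).1 (h2 hv).1 hv1 hu'
    have h5 : (u - r • u0) - r' • (u1 - t • u0) ∈ L := h1 ⟨by
      rw [mul_assoc]
      exact hr', Ideal.sub_mem _ hr (Ideal.mul_mem_left _ r' ht)⟩
    have h6 := L.add_mem (L.add_mem h5 (L.smul_mem r' hv)) (L.smul_mem r hu0)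
    simpa using h6

end Pool.Agent.H71.NVK
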