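import Pool.Agent.H89.NV.TU2
import Pool.Agent.H71.NVK.NU1L

/-!
# The local numbers as numbers of lattices (row U_NU1)
-/

set_option autoImplicit false
set_option linter.unusedSectionVars false
set_option linter.unusedVariables false

open MeasureTheory Set Filter NumberField NumberField.InfinitePlace
open scoped Real

namespace Pool.Agent.H71.NVK

open Pool.Agent.H65.CM4 Pool.Agent.H61.NVK Pool.Agent.H89.NV

section

variable {k : Type} [Field k] [NumberField k]

theorem cmul (x y : 𝓞 k) : ((x * y : 𝓞 k) : k) = (x : k) * (y : k) := rfl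

theorem cadd (x y : 𝓞 k) : ((x + y : 𝓞 k) : k) = (x : k) + (y : k) := rfl

theorem cneg (x : 𝓞 k) : ((-x : 𝓞 k) : k) = -(x : k) := rfl

theorem czero : ((0 : 𝓞 k) : k) = 0 := rfl

/-- the scalars which multiply `f` to integers -/
def Fi (f : Ideal (𝓞 k)) (φ : k) : Prop := ∀ y ∈ f, ∃ z : 𝓞 k, (z : k) = φ * y

theorem fi_mul {f J : Ideal (𝓞 k)} {φ : k} (hφ : Fi f φ) {z : 𝓞 k} (hz : z ∈ J * f) :
    ∃ w ∈ J, (w : k) = φ * z := by
  refine Submodule.mul_induction_on hz ?_ ?_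
  · intro x hx y hy
    obtain ⟨w, hw⟩ := hφ y hy
    refine ⟨x * w, J.mul_mem_right w hx, ?_⟩
    rw [cmul, cmul, hw]
    ring
  · rintro x y ⟨w, hw, hw'⟩ ⟨v, hv, hv'⟩
    refine ⟨w + v, J.add_mem hw hv, ?_⟩
    rw [cadd, cadd, hw', hv']
    ring

theorem le_of_fi {f J' : Ideal (𝓞 k)} {t : 𝓞 k} (ht : t ≠ 0) (hJ : f * J' = Ideal.span {t})
    (X Y : Ideal (𝓞 k)) (H : ∀ x ∈ X, ∀ φ : k, Fi f φ → ∃ w ∈ Y, (w : k) = φ * x) :
    X ≤ Y * f := by
  intro x hx
  have ht' : (t : k) ≠ 0 := by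
    intro h
    exact ht (RingOfIntegers.ext h)
  have h1 : Ideal.span {x} * J' ≤ Ideal.span {t} * Y := by
    rw [Ideal.span_singleton_mul_le_iff]
    intro g hg
    have hφ : Fi f ((g : k) / t) := by
      intro y hy
      have h2 : y * g ∈ Ideal.span {t} := by
        rw [← hJ]
        exact Ideal.mul_mem_mul hy hg
      obtain ⟨w, hw⟩ := Ideal.mem_span_singleton'.1 h2
      refine ⟨w, ?_⟩
      have h3 : (w : k) * t = y * g := congrArg (fun z : 𝓞 k => (z : k)) hw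
      field_simp
      linear_combination h3
    obtain ⟨w, hw, hw'⟩ := H x hx _ hφ
    rw [Ideal.mem_span_singleton_mul]
    refine ⟨w, hw, ?_⟩
    have h4 : (t : k) * w = x * g := by
      rw [hw']
      field_simp
    exact RingOfIntegers.ext h4
  have h2 : Ideal.span {t} * (Y * f) ∣ Ideal.span {t} * Ideal.span {x} := by
    have h3 : (Ideal.span {t} * Y) * f ∣ (Ideal.span {x} * J') * f :=
      mul_dvd_mul_right (Ideal.dvd_iff_le.2 h1) f
    have e : (Ideal.span {x} * J') * f = Ideal.span {t} * Ideal.span {x} := by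
      rw [← hJ]
      ring
    rw [e, mul_assoc] at h3
    exact h3
  have h0 : Ideal.span {t} ≠ (⊥ : Ideal (𝓞 k)) := by
    intro h
    exact ht (Ideal.span_singleton_eq_bot.1 h)
  have h3 := (mul_dvd_mul_iff_left h0).1 h2
  exact (Ideal.span_singleton_le_iff_mem _).1 (Ideal.dvd_iff_le.1 h3)

theorem q4_spec {x : 𝓞 k} {J : Ideal (𝓞 k)} (h : x ∈ ni k 4 * J) : 4 * q4 x = x ∧ q4 x ∈ J := by
  classical
  obtain ⟨c, hc, hc'⟩ := Ideal.mem_span_singleton_mul.1 h
  have hc2 : 4 * c = x := by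
    rw [← hc']
    push_cast
    ring
  have hex : ∃ c : 𝓞 k, 4 * c = x := ⟨c, hc2⟩
  have e : q4 x = hex.choose := by
    unfold q4
    rw [dif_pos hex]
  have h4 : 4 * q4 x = x := by
    rw [e]
    exact hex.choose_spec
  refine ⟨h4, ?_⟩
  have h5 : (4 : 𝓞 k) * q4 x = 4 * c := by rw [h4, hc2]
  have h6 : q4 x = c := mul_left_cancel₀ (by norm_num) h5
  rw [h6]
  exact hc

variable [IsTotallyReal k] {D : 𝓞 k} {K : Type} [Field K] [Algebra k K]

theorem act (h : CK D K) (B C x y x1 y1 : 𝓞 k) (φ : k) (hBC : 4 * C = B ^ 2 + D)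
    (hx1 : (x1 : k) = -(φ * C * y)) (hy1 : (y1 : k) = φ * (x + B * y)) :
    algebraMap k K φ * ((algebraMap (𝓞 k) K B + h.s) / 2 * zz h B (x, y)) =
      zz h B (x1, y1) := by
  have hc : CharZero K := charZero_of_injective_algebraMap (algebraMap k K).injective
  have e : ∀ z : 𝓞 k, algebraMap (𝓞 k) K z = algebraMap k K (z : k) := fun z => rfl
  have hS := h.sq
  have hC : 4 * algebraMap k K (C : k) = algebraMap k K (B : k) ^ 2 + algebraMap k K (D : k) := by
    have h1 : (4 : k) * (C : k) = (B : k) ^ 2 + (D : k) :=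
      congrArg (fun z : 𝓞 k => (z : k)) hBC
    have h2 := congrArg (algebraMap k K) h1
    rw [map_mul, map_add, map_pow] at h2
    rw [← h2]
    congr 1
    exact (map_ofNat (algebraMap k K) 4).symm
  unfold zz
  simp only [e]
  rw [hx1, hy1]
  simp only [map_neg, map_mul, map_add]
  linear_combination (algebraMap k K φ * algebraMap k K (y : k) / 4) * hS +
    (algebraMap k K φ * algebraMap k K (y : k) / 4) * hC

theorem stb_iff (h : CK D K) (f : Ideal (𝓞 k)) (b₀ B t : 𝓞 k) (ht : t ∈ f)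
    (hB : B = b₀ + 2 * t) (L : Submodule (𝓞 k) K) :
    Stb h f b₀ L ↔ ∀ z ∈ L, ∀ φ : k, Fi f φ →
      algebraMap k K φ * ((algebraMap (𝓞 k) K B + h.s) / 2 * z) ∈ L := by
  have hc : CharZero K := charZero_of_injective_algebraMap (algebraMap k K).injective
  have key : ∀ (z : K) (φ : k) (w : 𝓞 k), (w : k) = φ * t →
      algebraMap k K φ * ((algebraMap (𝓞 k) K B + h.s) / 2 * z) =
      algebraMap k K φ * ((algebraMap (𝓞 k) K b₀ + h.s) / 2 * z) + w • z := by
    intro z φ w hw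
    rw [Algebra.smul_def]
    have e1 : algebraMap (𝓞 k) K w = algebraMap k K φ * algebraMap (𝓞 k) K t := by
      have e : ∀ z : 𝓞 k, algebraMap (𝓞 k) K z = algebraMap k K (z : k) := fun z => rfl
      rw [e, e, hw, map_mul]
    rw [e1, hB]
    simp only [map_add, map_mul, map_ofNat]
    ring
  constructor
  · intro hS z hz φ hφ
    obtain ⟨w, hw⟩ := hφ t ht
    rw [key z φ w hw]
    exact L.add_mem (hS z hz φ hφ) (L.smul_mem w hz)
  · intro hS z hz φ hφ
    obtain ⟨w, hw⟩ := hφ t ht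
    have h1 := L.sub_mem (hS z hz φ hφ) (L.smul_mem w hz)
    rw [key z φ w hw, add_sub_cancel_right] at h1
    exact h1

/-- stability of the lattice `x ∈ X`, `y ∈ Y` in the coordinates of `B` -/
theorem stab_prod (h : CK D K) {f J' a X Y : Ideal (𝓞 k)} {b₀ B C t s : 𝓞 k} (hs : s ≠ 0)
    (hJ : f * J' = Ideal.span {s}) (ht : t ∈ f)
    (hB : B = b₀ + 2 * t) (hBf : B ∈ f) (hCf : C ∈ f) (hBC : 4 * C = B ^ 2 + D)
    (hinj : ∀ u v : V2 k, zz h B u = zz h B v → u = v)
    (L : Submodule (𝓞 k) K) (hL : ∀ z, z ∈ L ↔ ∃ x ∈ X, ∃ y ∈ Y, z = zz h B (x, y))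
    (hX : X ≤ f) :
    Stb h f b₀ L ↔ Ideal.span {C} * Y ≤ X * f ∧ X ≤ Y * f := by
  rw [stb_iff h f b₀ B t ht hB L]
  constructor
  · intro H
    constructor
    · refine le_of_fi hs hJ _ _ ?_
      intro x hx φ hφ
      obtain ⟨y, hy, rfl⟩ := Ideal.mem_span_singleton_mul.1 hx
      obtain ⟨x1, hx1, hx1'⟩ := fi_mul (J := ⊤) hφ (z := C * y) (by
        rw [Ideal.top_mul]
        exact f.mul_mem_right y hCf)
      obtain ⟨y1, hy1, hy1'⟩ := fi_mul (J := ⊤) hφ (z := B * y) (by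
        rw [Ideal.top_mul]
        exact f.mul_mem_right y hBf)
      have h1 := H (zz h B (0, y)) ((hL _).2 ⟨0, X.zero_mem, y, hy, rfl⟩) φ hφ
      rw [act h B C 0 y (-x1) y1 φ hBC (by
        rw [cneg, hx1', cmul]
        ring) (by
        rw [hy1', cmul, czero]
        ring)] at h1
      obtain ⟨x2, hx2, y2, hy2, h2⟩ := (hL _).1 h1
      have h3 := hinj _ _ h2
      have h4 : -x1 = x2 := congrArg Prod.fst h3
      refine ⟨x1, ?_, hx1'⟩
      rw [← neg_neg x1, h4]
      exact X.neg_mem hx2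
    · refine le_of_fi hs hJ _ _ ?_
      intro x hx φ hφ
      obtain ⟨y1, hy1, hy1'⟩ := fi_mul (J := ⊤) hφ (z := x) (by
        rw [Ideal.top_mul]
        exact hX hx)
      have h1 := H (zz h B (x, 0)) ((hL _).2 ⟨x, hx, 0, Y.zero_mem, rfl⟩) φ hφ
      rw [act h B C x 0 0 y1 φ hBC (by
        rw [czero]
        ring) (by
        rw [hy1', czero]
        ring)] at h1
      obtain ⟨x2, hx2, y2, hy2, h2⟩ := (hL _).1 h1
      have h3 := hinj _ _ h2
      have h4 : y1 = y2 := congrArg Prod.snd h3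
      refine ⟨y1, ?_, hy1'⟩
      rw [h4]
      exact hy2
  · rintro ⟨H1, H2⟩ z hz φ hφ
    obtain ⟨x, hx, y, hy, rfl⟩ := (hL _).1 hz
    obtain ⟨x1, hx1, hx1'⟩ := fi_mul (J := X) hφ (z := C * y)
      (H1 (Ideal.mul_mem_mul (Ideal.mem_span_singleton_self C) hy))
    obtain ⟨y1, hy1, hy1'⟩ := fi_mul (J := Y) hφ (z := x + B * y)
      (Ideal.add_mem _ (H2 hx) (by
        rw [mul_comm B y]
        exact Ideal.mul_mem_mul hy hBf))
    rw [act h B C x y (-x1) y1 φ hBC (by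
      rw [cneg, hx1', cmul]
      ring) (by
      rw [hy1', cadd, cmul])]
    exact (hL _).2 ⟨-x1, X.neg_mem hx1, y1, hy1, rfl⟩

theorem stab_Li (h : CK D K) {f J' a A P : Ideal (𝓞 k)} {b₀ b c t s : 𝓞 k} (hs : s ≠ 0)
    (hJ : f * J' = Ideal.span {s}) (hf : f ≠ ⊥) (ha : a ≠ ⊥) (ht : t ∈ f)
    (hB : b = b₀ + 2 * t) (hb : b ∈ f) (hc : c ∈ A * f ^ 2) (hBC : 4 * c = b ^ 2 + D)
    (hinj : ∀ u v : V2 k, zz h b u = zz h b v → u = v)
    (L : Submodule (𝓞 k) K) (hL : ∀ z, z ∈ L ↔ ∃ u ∈ Li P a (A * f), z = zz h b u) :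
    Stb h f b₀ L ↔ P ∣ A := by
  have hcf : c ∈ f := by
    have e : A * f ^ 2 = (A * f) * f := by ring
    rw [e] at hc
    exact Ideal.mul_le_right hc
  have hX : a * (A * f) ≤ f := by
    rw [← mul_assoc]
    exact Ideal.mul_le_right
  rw [stab_prod h (a := a) (X := a * (A * f)) (Y := P * a) hs hJ ht hB hb hcf hBC hinj L ?_ hX]
  · constructor
    · rintro ⟨-, h2⟩
      have h3 := Ideal.dvd_iff_le.2 h2
      have e1 : P * a * f = (a * f) * P := by ring
      have e2 : a * (A * f) = (a * f) * A := by ring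
      rw [e1, e2] at h3
      exact (mul_dvd_mul_iff_left (mul_ne_zero ha hf)).1 h3
    · intro h1
      constructor
      · have h2 : Ideal.span {c} ≤ A * f ^ 2 := (Ideal.span_singleton_le_iff_mem _).2 hc
        have e : a * (A * f) * f = (A * f ^ 2) * a := by ring
        rw [e]
        exact Ideal.mul_mono h2 Ideal.mul_le_right
      · apply Ideal.dvd_iff_le.1
        have e1 : P * a * f = (a * f) * P := by ring
        have e2 : a * (A * f) = (a * f) * A := by ring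
        rw [e1, e2]
        exact mul_dvd_mul_left _ h1
  · intro z
    rw [hL]
    constructor
    · rintro ⟨u, hu, rfl⟩
      exact ⟨u.1, hu.1, u.2, hu.2, rfl⟩
    · rintro ⟨x, hx, y, hy, rfl⟩
      exact ⟨(x, y), ⟨hx, hy⟩, rfl⟩

theorem stab_Lj (h : CK D K) {f J' a A P : Ideal (𝓞 k)} {b₀ b c t s j : 𝓞 k} (hs : s ≠ 0)
    (hJ : f * J' = Ideal.span {s}) (hf : f ≠ ⊥) (ha : a ≠ ⊥) (ht : t ∈ f)
    (hB : b = b₀ + 2 * t) (hb : b ∈ f) (hc : c ∈ A * f ^ 2) (hBC : 4 * c = b ^ 2 + D)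
    (hinj : ∀ u v : V2 k, zz h b u = zz h b v → u = v)
    (hsh : ∀ u : V2 k, zz h (b + 2 * j) (u.1 - j * u.2, u.2) = zz h b u) (hj : j ∈ A * f)
    (L : Submodule (𝓞 k) K) (hL : ∀ z, z ∈ L ↔ ∃ u ∈ Lj P a (A * f) j, z = zz h b u) :
    Stb h f b₀ L ↔ j ^ 2 + b * j + c ∈ P * (A * f ^ 2) := by
  have hjf : j ∈ f := Ideal.mul_le_right hj
  have hcf : j ^ 2 + b * j + c ∈ f := by
    have e : A * f ^ 2 = (A * f) * f := by ring
    rw [e] at hc
    refine f.add_mem (f.add_mem ?_ (f.mul_mem_right j hb)) (Ideal.mul_le_right hc)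
    rw [sq]
    exact f.mul_mem_right j hjf
  have hX : P * (a * (A * f)) ≤ f := by
    have e : P * (a * (A * f)) = (P * a * A) * f := by ring
    rw [e]
    exact Ideal.mul_le_right
  have hsh' : ∀ x y : 𝓞 k, zz h (b + 2 * j) (x, y) = zz h b (x + j * y, y) := by
    intro x y
    have h1 := hsh (x + j * y, y)
    simp only [add_sub_cancel_right] at h1
    exact h1
  rw [stab_prod h (a := a) (X := P * (a * (A * f))) (Y := a) (B := b + 2 * j)
    (C := j ^ 2 + b * j + c) (t := t + j) hs hJ (f.add_mem ht hjf) (by rw [hB]; ring)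
    (f.add_mem hb (f.mul_mem_left 2 hjf)) hcf (by linear_combination hBC) ?_ L ?_ hX]
  · constructor
    · rintro ⟨h2, -⟩
      have h3 := Ideal.dvd_iff_le.2 h2
      have e1 : P * (a * (A * f)) * f = a * (P * (A * f ^ 2)) := by ring
      rw [e1, mul_comm (Ideal.span {j ^ 2 + b * j + c}) a] at h3
      exact (Ideal.span_singleton_le_iff_mem _).1
        (Ideal.dvd_iff_le.1 ((mul_dvd_mul_iff_left ha).1 h3))
    · intro h1
      constructor
      · have e1 : P * (a * (A * f)) * f = (P * (A * f ^ 2)) * a := by ring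
        rw [e1]
        exact Ideal.mul_mono ((Ideal.span_singleton_le_iff_mem _).2 h1) le_rfl
      · have e1 : P * (a * (A * f)) = (P * A) * (a * f) := by ring
        rw [e1]
        exact Ideal.mul_le_right
  · intro u v huv
    rw [← Prod.mk.eta (p := u), ← Prod.mk.eta (p := v), hsh', hsh'] at huv
    obtain ⟨h3, h2⟩ := Prod.mk.inj (hinj _ _ huv)
    rw [h2] at h3
    exact Prod.ext (add_right_cancel h3) h2
  · intro z
    rw [hL]
    constructor
    · rintro ⟨u, hu, rfl⟩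
      exact ⟨u.1 - j * u.2, hu.2, u.2, hu.1, (hsh u).symm⟩
    · rintro ⟨x, hx, y, hy, rfl⟩
      refine ⟨(x + j * y, y), ⟨hy, ?_⟩, hsh' x y⟩
      simpa using hx

end

section

variable (k : Type) [Field k] [NumberField k] [IsTotallyReal k]

theorem pf_NU1 (hRSB : T_RSB k) (hIDL : T_IDL k) (hCKB : T_CKB k) (hLMB : T_LMB k)
    (hSTB : T_STB k) (hBMD : T_BMD k) : T_NU1 k := by
  intro D hD K _ _ h f a A b b₀ P u hf ha hFm hFm0 hu
  classical
  obtain ⟨P, hP, hP0⟩ := P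
  obtain ⟨-, -, -, -, -, -, -, hck⟩ := hCKB D hD K h
  obtain ⟨z_add, z_smul, z_inj, -, -, -, z_shift⟩ := hck f A b hf hFm
  have hA := hFm.ne
  have hAf : A * f ≠ ⊥ := mul_ne_zero hA hf
  have hPAf : P * (A * f) ≠ ⊥ := mul_ne_zero hP0 hAf
  obtain ⟨hc4, hcm⟩ := q4_spec hFm.dis
  obtain ⟨J', s, hJ'0, hs, hJ⟩ := hIDL.1 f hf
  obtain ⟨t, ht, htb⟩ : ∃ t ∈ f, b = b₀ + 2 * t := by
    have hd : b ^ 2 + D ∈ ni k 4 * f ^ 2 := by
      have e : ni k 4 * (A * f ^ 2) = A * (ni k 4 * f ^ 2) := by ring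
      have h1 := hFm.dis
      rw [e] at h1
      exact Ideal.mul_le_right h1
    have hd0 : b₀ ^ 2 + D ∈ ni k 4 * f ^ 2 := by
      have h1 := hFm0.dis
      rwa [Ideal.top_mul] at h1
    have h1 := hBMD f D b b₀ hf hFm.mem hFm0.mem hd hd0
    obtain ⟨t, ht, ht'⟩ := Ideal.mem_span_singleton_mul.1 h1
    refine ⟨t, ht, ?_⟩
    have e : ((2 : ℕ) : 𝓞 k) = 2 := by norm_num
    rw [e] at ht'
    rw [ht']
    ring
  set c := q4 (b ^ 2 + D) with hcdef
  let Zl : V2 k →ₗ[𝓞 k] K :=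
    { toFun := zz h b
      map_add' := z_add
      map_smul' := fun c u => (z_smul c u).trans (Algebra.smul_def c (zz h b u)).symm }
  have hZ : ∀ v, Zl v = zz h b v := fun v => rfl
  have hZi : Function.Injective Zl := fun v w hvw => z_inj v w hvw
  have hM : hom a 1 (Lam h f A b) = (Submodule.prod (a * (A * f)) a).map Zl := by
    ext z
    rw [(hLMB D hD K h f a A b hf hFm).1 z, Submodule.mem_map]
    constructor
    · rintro ⟨v, hv, rfl⟩
      exact ⟨v, hv, rfl⟩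
    · rintro ⟨v, hv, rfl⟩
      exact ⟨v, hv, rfl⟩
  have hPM : P • hom a 1 (Lam h f A b) = (Submodule.prod ((P * a) * (A * f)) (P * a)).map Zl := by
    have h1 : P • hom a 1 (Lam h f A b) = hom (P * a) 1 (Lam h f A b) := by
      unfold hom
      rw [← smul_eq_mul P a, Submodule.smul_assoc]
    rw [h1]
    ext z
    rw [(hLMB D hD K h f (P * a) A b hf hFm).1 z, Submodule.mem_map]
    constructor
    · rintro ⟨v, hv, rfl⟩
      exact ⟨v, hv, rfl⟩
    · rintro ⟨v, hv, rfl⟩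
      exact ⟨v, hv, rfl⟩
  have hmi : Function.Injective (Submodule.map Zl) := Submodule.map_injective_of_injective hZi
  have hLimem : ∀ z, z ∈ (Li P a (A * f)).map Zl ↔ ∃ u ∈ Li P a (A * f), z = zz h b u := by
    intro z
    rw [Submodule.mem_map]
    exact ⟨fun ⟨v, hv, hv'⟩ => ⟨v, hv, hv'.symm⟩, fun ⟨v, hv, hv'⟩ => ⟨v, hv, hv'.symm⟩⟩
  have hLjmem : ∀ j z, z ∈ (Lj P a (A * f) j).map Zl ↔
      ∃ u ∈ Lj P a (A * f) j, z = zz h b u := by
    intro j z
    rw [Submodule.mem_map]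
    exact ⟨fun ⟨v, hv, hv'⟩ => ⟨v, hv, hv'.symm⟩, fun ⟨v, hv, hv'⟩ => ⟨v, hv, hv'.symm⟩⟩
  have hSi : Stb h f b₀ ((Li P a (A * f)).map Zl) ↔ P ∣ A :=
    stab_Li h hs hJ hf ha ht htb hFm.mem hcm hc4 z_inj _ hLimem
  have hSj : ∀ j ∈ A * f, (Stb h f b₀ ((Lj P a (A * f) j).map Zl) ↔
      j ^ 2 + b * j + c ∈ P * (A * f ^ 2)) := fun j hj =>
    stab_Lj h hs hJ hf ha ht htb hFm.mem hcm hc4 z_inj (z_shift j) hj _ (hLjmem j)
  set T : Finset (Submodule (𝓞 k) K) :=
    (if P ∣ A ∧ u.2 ∈ P * a then {(Li P a (A * f)).map Zl} else ∅) ∪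
      ((rts f P A b c).filter (fun j => u.1 - j * u.2 ∈ P * (a * (A * f)))).image
        (fun j => (Lj P a (A * f) j).map Zl) with hT
  have hrts : ∀ j, j ∈ rts f P A b c ↔ j ∈ Rs (P * (A * f)) ∧ j ∈ A * f ∧
      j ^ 2 + b * j + c ∈ P * (A * f ^ 2) := by
    intro j
    unfold rts
    rw [Finset.mem_filter]
  have hmemZ : ∀ N : Submodule (𝓞 k) (V2 k), zz h b u ∈ N.map Zl ↔ u ∈ N := by
    intro N
    rw [Submodule.mem_map]
    constructor
    · rintro ⟨v, hv, hv'⟩
      rw [← z_inj v u hv']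
      exact hv
    · intro hv
      exact ⟨u, hv, rfl⟩
  have H : ∀ L : Submodule (𝓞 k) K, L ∈ T ↔ (P • hom a 1 (Lam h f A b) ≤ L ∧
      L ≤ hom a 1 (Lam h f A b) ∧ L ≠ hom a 1 (Lam h f A b) ∧
        L ≠ P • hom a 1 (Lam h f A b) ∧ Stb h f b₀ L ∧ zz h b u ∈ L) := by
    intro L
    rw [hPM, hM, hT, Finset.mem_union]
    constructor
    · rintro (hL | hL)
      · split_ifs at hL with hc
        · rw [Finset.mem_singleton] at hL
          subst hL
          obtain ⟨q1, q2⟩ := prop_Li P a (A * f) hP ha hAf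
          exact ⟨Submodule.map_mono (le_Li P a (A * f)), Submodule.map_mono (Li_le P a (A * f)),
            fun e => q1 (hmi e), fun e => q2 (hmi e), hSi.2 hc.1,
            (hmemZ _).2 ⟨hu.1, hc.2⟩⟩
        · exact absurd hL (Finset.notMem_empty _)
      · obtain ⟨j, hj, rfl⟩ := Finset.mem_image.1 hL
        obtain ⟨hj1, hj2⟩ := Finset.mem_filter.1 hj
        obtain ⟨-, hj3, hj4⟩ := (hrts j).1 hj1
        obtain ⟨q1, q2, -⟩ := prop_Lj P a (A * f) j hj3 hP ha hAf
        exact ⟨Submodule.map_mono (le_Lj P a (A * f) j hj3),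
          Submodule.map_mono (Lj_le P a (A * f) j hj3), fun e => q1 (hmi e),
          fun e => q2 (hmi e), (hSj j hj3).2 hj4, (hmemZ _).2 ⟨hu.2, hj2⟩⟩
    · rintro ⟨h1, h2, h3, h4, h5, h6⟩
      have hr : L ≤ LinearMap.range Zl := h2.trans (LinearMap.map_le_range)
      have hL : (L.comap Zl).map Zl = L := Submodule.map_comap_eq_self hr
      have g1 : Submodule.prod ((P * a) * (A * f)) (P * a) ≤ L.comap Zl :=
        Submodule.map_le_iff_le_comap.1 h1
      have g2 : L.comap Zl ≤ Submodule.prod (a * (A * f)) a := by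
        rw [← Submodule.comap_map_eq_of_injective hZi (Submodule.prod (a * (A * f)) a)]
        exact Submodule.comap_mono h2
      have g3 : L.comap Zl ≠ Submodule.prod (a * (A * f)) a := by
        intro e
        rw [e] at hL
        exact h3 hL.symm
      have g4 : L.comap Zl ≠ Submodule.prod ((P * a) * (A * f)) (P * a) := by
        intro e
        rw [e] at hL
        exact h4 hL.symm
      have hum : u ∈ L.comap Zl := h6
      rcases classify P a (A * f) hP hP0 ha hAf _ g1 g2 g3 g4 with e | ⟨j, hj, e⟩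
      · left
        rw [e] at hL hum
        rw [← hL] at h5
        rw [if_pos ⟨hSi.1 h5, hum.2⟩, Finset.mem_singleton, hL]
      · right
        obtain ⟨r, ⟨hr1, hr2⟩, -⟩ := (hRSB.1 _ hPAf).1 j
        have hrm : r ∈ A * f := by
          have e2 : r = j - (j - r) := by ring
          rw [e2]
          exact Ideal.sub_mem _ hj (Ideal.mul_le_right hr2)
        rw [e, Lj_eq P a (A * f) j r hr2] at hL hum
        rw [← hL] at h5
        rw [Finset.mem_image]
        refine ⟨r, Finset.mem_filter.2 ⟨(hrts r).2 ⟨hr1, hrm, (hSj r hrm).1 h5⟩, hum.2⟩, hL⟩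
  rw [Nat.subtype_card T H]
  rw [hT, Finset.card_union_of_disjoint, Finset.card_image_of_injOn]
  · unfold nuP
    congr 1
    split_ifs with hc
    · rw [Finset.card_singleton]
    · rw [Finset.card_empty]
  · intro j hj j' hj' e
    obtain ⟨hj1, -⟩ := (hrts j).1 (Finset.mem_filter.1 hj).1
    obtain ⟨hj1', -⟩ := (hrts j').1 (Finset.mem_filter.1 hj').1
    have h1 := Lj_inj P a (A * f) j j' ha (hmi e)
    obtain ⟨r, -, hr⟩ := (hRSB.1 _ hPAf).1 j
    rw [hr j ⟨hj1, by simp⟩, hr j' ⟨hj1', h1⟩]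
  · rw [Finset.disjoint_left]
    intro L hL hL'
    obtain ⟨j, hj, rfl⟩ := Finset.mem_image.1 hL'
    obtain ⟨-, hj3, -⟩ := (hrts j).1 (Finset.mem_filter.1 hj).1
    split_ifs at hL with hc
    · rw [Finset.mem_singleton] at hL
      exact (prop_Lj P a (A * f) j hj3 hP ha hAf).2.2 (hmi hL)
    · exact absurd hL (Finset.notMem_empty _)

end

end Pool.Agent.H71.NVK
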